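import Mathlib

set_option autoImplicit false

namespace Pool.Agent.Results.MP_aa2e78_ag.NotQuasihomogeneous

open MvPolynomial

/-- `a` is a singular point of the hypersurface `p = 0`. -/
def IsSingularPt {n : ℕ} (p : MvPolynomial (Fin n) ℂ) (a : Fin n → ℂ) : Prop :=
  eval a p = 0 ∧ ∀ i : Fin n, eval a (pderiv i p) = 0

/-- `a` is an isolated singular point of the hypersurface `p = 0`: it is singular and some
Euclidean neighbourhood of it contains no other singular point. -/
def IsIsolatedSingularPt {n : ℕ} (p : MvPolynomial (Fin n) ℂ) (a : Fin n → ℂ) : Prop :=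
  IsSingularPt p a ∧ ∃ U ∈ nhds a, ∀ b ∈ U, b ≠ a → ¬ IsSingularPt p b

/-- `q` is quasihomogeneous: there are positive integers `w i` and an integer `d` with
`q (t ^ w 1 * x 1, ..., t ^ w n * x n) = t ^ d * q x` for all nonzero `t` and all `x`. -/
def IsQuasihomogeneous {n : ℕ} (q : MvPolynomial (Fin n) ℂ) : Prop :=
  ∃ w : Fin n → ℕ, (∀ i, 0 < w i) ∧ ∃ d : ℤ, ∀ t : ℂ, t ≠ 0 → ∀ x : Fin n → ℂ,
    eval (fun i => t ^ (w i) * x i) q = t ^ d * eval x q

noncomputable section

variable {n : ℕ}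

/-- chain rule -/
lemma pderiv_aeval (F : Fin n → MvPolynomial (Fin n) ℂ) (p : MvPolynomial (Fin n) ℂ) (i : Fin n) :
    pderiv i (aeval F p) = ∑ j, aeval F (pderiv j p) * pderiv i (F j) := by
  induction p using MvPolynomial.induction_on with
  | C a => simp
  | add p q hp hq =>
    simp only [map_add, hp, hq, add_mul, Finset.sum_add_distrib]
  | mul_X p k hp =>
    simp only [map_mul, aeval_X, Derivation.leibniz, smul_eq_mul, map_add, hp, add_mul,
      Finset.sum_add_distrib, Finset.mul_sum]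
    congr 1
    · have h : ∀ j : Fin n, aeval F p * aeval F (pderiv j (X k : MvPolynomial (Fin n) ℂ)) *
          pderiv i (F j) = if j = k then aeval F p * pderiv i (F k) else 0 := by
        intro j
        by_cases hjk : j = k
        · subst hjk; simp
        · rw [pderiv_X_of_ne (Ne.symm hjk)]; simp [hjk]
      rw [Finset.sum_congr rfl (fun j _ => h j)]
      simp
    · apply Finset.sum_congr rfl
      intro j _
      ring

lemma eval_aeval (x : Fin n → ℂ) (F : Fin n → MvPolynomial (Fin n) ℂ) (g : MvPolynomial (Fin n) ℂ) :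
    eval x (aeval F g) = eval (fun i => eval x (F i)) g := by
  induction g using MvPolynomial.induction_on with
  | C a => simp
  | add p q hp hq => simp only [map_add, hp, hq]
  | mul_X p i hp => simp only [map_mul, hp, aeval_X, eval_X]

/-- Singular points pull back under polynomial maps. -/
lemma sing_pull (F : Fin n → MvPolynomial (Fin n) ℂ) (p : MvPolynomial (Fin n) ℂ) (a : Fin n → ℂ)
    (h : IsSingularPt p (fun i => eval a (F i))) : IsSingularPt (aeval F p) a := by
  refine ⟨by rw [eval_aeval]; exact h.1, fun i => ?_⟩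
  rw [pderiv_aeval, map_sum]
  apply Finset.sum_eq_zero
  intro j _
  rw [map_mul, eval_aeval, h.2 j, zero_mul]

lemma eq_aeval (Φ : MvPolynomial (Fin n) ℂ ≃ₐ[ℂ] MvPolynomial (Fin n) ℂ) (p : MvPolynomial (Fin n) ℂ) :
    Φ p = aeval (fun i => Φ (X i)) p := by
  have h : (Φ : MvPolynomial (Fin n) ℂ →ₐ[ℂ] MvPolynomial (Fin n) ℂ) = aeval (fun i => Φ (X i)) := by
    apply MvPolynomial.algHom_ext
    intro i
    simp
  exact DFunLike.congr_fun h p

/-- the map of points given by an automorphism -/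
def pts (Φ : MvPolynomial (Fin n) ℂ ≃ₐ[ℂ] MvPolynomial (Fin n) ℂ) (a : Fin n → ℂ) : Fin n → ℂ :=
  fun i => eval a (Φ (X i))

lemma pts_symm (Φ : MvPolynomial (Fin n) ℂ ≃ₐ[ℂ] MvPolynomial (Fin n) ℂ) (a : Fin n → ℂ) :
    pts Φ (pts Φ.symm a) = a := by
  funext i
  unfold pts
  rw [← eval_aeval, ← eq_aeval Φ.symm, AlgEquiv.symm_apply_apply, eval_X]

lemma sing_iff (Φ : MvPolynomial (Fin n) ℂ ≃ₐ[ℂ] MvPolynomial (Fin n) ℂ) (p : MvPolynomial (Fin n) ℂ)
    (a : Fin n → ℂ) : IsSingularPt (Φ p) a ↔ IsSingularPt p (pts Φ a) := by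
  constructor
  · intro h
    have h1 : IsSingularPt (Φ p) (pts Φ.symm (pts Φ a)) := by
      have : pts Φ.symm (pts Φ a) = a := pts_symm Φ.symm a
      rw [this]; exact h
    have h2 := sing_pull _ _ _ h1
    rw [← eq_aeval Φ.symm, AlgEquiv.symm_apply_apply] at h2
    exact h2
  · intro h
    rw [eq_aeval Φ]
    exact sing_pull _ _ _ h

/-- A quasihomogeneous polynomial with a nonzero singular point has infinitely many. -/
lemma qh_sing {q : MvPolynomial (Fin n) ℂ} (hq : IsQuasihomogeneous q) (a : Fin n → ℂ) (ha : a ≠ 0)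
    (hs : IsSingularPt q a) : Set.Infinite {b : Fin n → ℂ | IsSingularPt q b} := by
  obtain ⟨w, hw, d, h⟩ := hq
  obtain ⟨k, hk⟩ : ∃ k, a k ≠ 0 := by
    by_contra hcon
    push Not at hcon
    exact ha (funext hcon)
  -- scaled points are singular
  have hsc : ∀ t : ℂ, t ≠ 0 → IsSingularPt q (fun i => t ^ (w i) * a i) := by
    intro t ht
    have hpoly : aeval (fun i => C (t ^ (w i)) * X i) q = C (t ^ d) * q := by
      apply MvPolynomial.funext
      intro x
      rw [eval_aeval, map_mul, eval_C, ← h t ht x]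
      congr 2
      funext i
      simp
    refine ⟨by rw [h t ht, hs.1, mul_zero], fun i => ?_⟩
    have h1 := congrArg (fun g => eval a (pderiv i g)) hpoly
    simp only [pderiv_aeval, map_sum, map_mul, Derivation.leibniz, smul_eq_mul, pderiv_C, mul_zero,
      add_zero, eval_aeval, eval_C, eval_X, hs.2 i] at h1
    rw [Finset.sum_eq_single i] at h1
    · simp only [pderiv_X_self, map_one, mul_one] at h1
      have hne : (t ^ (w i) : ℂ) ≠ 0 := pow_ne_zero _ ht
      simpa [hne, hs.2 i] using h1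
    · intro j _ hji
      rw [pderiv_X_of_ne hji]
      simp
    · intro hi; exact absurd (Finset.mem_univ i) hi
  -- the orbit is infinite
  have hinj : Set.InjOn (fun m : ℕ => (fun i => ((2 : ℂ) ^ m) ^ (w i) * a i)) Set.univ := by
    intro m _ m' _ hmm
    have h1 := congrFun hmm k
    simp only at h1
    have h2 := mul_right_cancel₀ hk h1
    rw [← pow_mul, ← pow_mul] at h2
    have h3 : (2 : ℕ) ^ (m * w k) = 2 ^ (m' * w k) := by exact_mod_cast h2
    have h4 := Nat.pow_right_injective le_rfl h3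
    exact Nat.eq_of_mul_eq_mul_right (hw k) h4
  have hinf := (Set.infinite_univ (α := ℕ)).image hinj
  apply hinf.mono
  rintro _ ⟨m, -, rfl⟩
  exact hsc _ (pow_ne_zero m two_ne_zero)

/-! ### The example -/

/-- The polynomial `x_2 ^ 2 + ... + x_(m+2) ^ 2 - x_1 * (x_1 - 1) * x_0`. -/
def P (m : ℕ) : MvPolynomial (Fin (m + 3)) ℂ :=
  -(X 1 * (X 1 - 1)) * X 0 + ∑ i : Fin (m + 1), X i.succ.succ ^ 2

lemma eval_P (m : ℕ) (x : Fin (m + 3) → ℂ) :
    eval x (P m) = -(x 1 * (x 1 - 1)) * x 0 + ∑ i : Fin (m + 1), x i.succ.succ ^ 2 := by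
  simp [P]

lemma ss_ne_zero {m : ℕ} (i : Fin (m + 1)) : (i.succ.succ : Fin (m + 3)) ≠ 0 :=
  Fin.succ_ne_zero _

lemma ss_ne_one {m : ℕ} (i : Fin (m + 1)) : (i.succ.succ : Fin (m + 3)) ≠ 1 := by
  intro h
  have h1 : (1 : Fin (m + 3)) = (0 : Fin (m + 2)).succ := rfl
  rw [h1, Fin.succ_inj] at h
  exact Fin.succ_ne_zero _ h

lemma one_ne_zero' {m : ℕ} : (1 : Fin (m + 3)) ≠ 0 := by
  have h1 : (1 : Fin (m + 3)) = (0 : Fin (m + 2)).succ := rfl
  rw [h1]; exact Fin.succ_ne_zero _

lemma eval_d0 (m : ℕ) (x : Fin (m + 3) → ℂ) :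
    eval x (pderiv 0 (P m)) = -(x 1 * (x 1 - 1)) := by
  have h : ∀ i : Fin (m + 1), pderiv (0 : Fin (m + 3)) (X i.succ.succ ^ 2 : MvPolynomial (Fin (m + 3)) ℂ) = 0 := by
    intro i
    rw [Derivation.leibniz_pow, pderiv_X_of_ne (ss_ne_zero i)]; simp
  have h1 : pderiv (0 : Fin (m + 3)) (X 1 : MvPolynomial (Fin (m + 3)) ℂ) = 0 :=
    pderiv_X_of_ne one_ne_zero'
  simp only [P, map_add, map_sum, h, Finset.sum_const_zero, add_zero, Derivation.leibniz, map_neg,
    map_sub, h1, pderiv_X_self, smul_eq_mul, pderiv_one]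
  simp

lemma eval_d1 (m : ℕ) (x : Fin (m + 3) → ℂ) :
    eval x (pderiv 1 (P m)) = -(2 * x 1 - 1) * x 0 := by
  have h : ∀ i : Fin (m + 1), pderiv (1 : Fin (m + 3)) (X i.succ.succ ^ 2 : MvPolynomial (Fin (m + 3)) ℂ) = 0 := by
    intro i
    rw [Derivation.leibniz_pow, pderiv_X_of_ne (ss_ne_one i)]; simp
  have h1 : pderiv (1 : Fin (m + 3)) (X 0 : MvPolynomial (Fin (m + 3)) ℂ) = 0 :=
    pderiv_X_of_ne one_ne_zero'.symm
  simp only [P, map_add, map_sum, h, Finset.sum_const_zero, add_zero, Derivation.leibniz, map_neg,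
    map_sub, h1, pderiv_X_self, smul_eq_mul, pderiv_one]
  simp
  ring

lemma eval_dss (m : ℕ) (k : Fin (m + 1)) (x : Fin (m + 3) → ℂ) :
    eval x (pderiv k.succ.succ (P m)) = 2 * x k.succ.succ := by
  have h : ∀ i : Fin (m + 1), pderiv (k.succ.succ : Fin (m + 3)) (X i.succ.succ ^ 2 : MvPolynomial (Fin (m + 3)) ℂ)
      = if i = k then 2 * X k.succ.succ else 0 := by
    intro i
    by_cases hik : i = k
    · subst hik
      rw [Derivation.leibniz_pow, pderiv_X_self]; simp
    · rw [Derivation.leibniz_pow, pderiv_X_of_ne]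
      · simp [hik]
      · intro hc
        exact hik (Fin.succ_injective _ (Fin.succ_injective _ hc))
  have h0 : pderiv (k.succ.succ : Fin (m + 3)) (X 0 : MvPolynomial (Fin (m + 3)) ℂ) = 0 :=
    pderiv_X_of_ne (ss_ne_zero k).symm
  have h1 : pderiv (k.succ.succ : Fin (m + 3)) (X 1 : MvPolynomial (Fin (m + 3)) ℂ) = 0 :=
    pderiv_X_of_ne (ss_ne_one k).symm
  simp only [P, map_add, map_sum, h, Derivation.leibniz, map_neg,
    map_sub, h0, h1, smul_eq_mul, pderiv_one]
  rw [← map_sum, Finset.sum_ite_eq' Finset.univ k]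
  simp

/-- the second singular point -/
def e (m : ℕ) : Fin (m + 3) → ℂ := Pi.single 1 1

lemma sing_P (m : ℕ) (a : Fin (m + 3) → ℂ) : IsSingularPt (P m) a ↔ a = 0 ∨ a = e m := by
  constructor
  · rintro ⟨h0, h⟩
    have d0 := h 0
    rw [eval_d0] at d0
    have d1 := h 1
    rw [eval_d1] at d1
    have dk : ∀ k : Fin (m + 1), a k.succ.succ = 0 := by
      intro k
      have := h k.succ.succ
      rw [eval_dss] at this
      simpa using this
    have d0' : a 1 = 0 ∨ a 1 = 1 := by
      rcases mul_eq_zero.mp (neg_eq_zero.mp d0) with h | h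
      · exact Or.inl h
      · exact Or.inr (by linear_combination h)
    have a0 : a 0 = 0 := by
      rcases d0' with h | h <;> rw [h] at d1
      · linear_combination d1
      · linear_combination -d1
    rcases d0' with h1 | h1
    · left
      funext i
      refine Fin.cases ?_ (fun i => ?_) i
      · exact a0
      · refine Fin.cases ?_ (fun i => ?_) i
        · exact h1
        · exact dk i
    · right
      funext i
      refine Fin.cases ?_ (fun i => ?_) i
      · rw [a0, e, Pi.single_eq_of_ne one_ne_zero'.symm]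
      · refine Fin.cases ?_ (fun i => ?_) i
        · have : (0 : Fin (m + 2)).succ = (1 : Fin (m + 3)) := rfl
          rw [this, h1, e, Pi.single_eq_same]
        · rw [dk i, e, Pi.single_eq_of_ne (ss_ne_one i)]
  · intro h
    have hz : a 0 = 0 := by
      rcases h with rfl | rfl
      · rfl
      · rw [e, Pi.single_eq_of_ne one_ne_zero'.symm]
    have hk : ∀ k : Fin (m + 1), a k.succ.succ = 0 := by
      intro k
      rcases h with rfl | rfl
      · rfl
      · rw [e, Pi.single_eq_of_ne (ss_ne_one k)]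
    have h1 : a 1 * (a 1 - 1) = 0 := by
      rcases h with rfl | rfl
      · simp
      · simp [e]
    refine ⟨?_, fun i => ?_⟩
    · rw [eval_P, hz]; simp [hk]
    · refine Fin.cases ?_ (fun i => ?_) i
      · rw [eval_d0, h1, neg_zero]
      · refine Fin.cases ?_ (fun i => ?_) i
        · have : (0 : Fin (m + 2)).succ = (1 : Fin (m + 3)) := rfl
          rw [this, eval_d1, hz, mul_zero]
        · rw [eval_dss, hk, mul_zero]

lemma sing_set (m : ℕ) : {a | IsSingularPt (P m) a} = {0, e m} := by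
  ext a
  simp [sing_P]

lemma e_ne (m : ℕ) : (0 : Fin (m + 3) → ℂ) ≠ e m := by
  intro h
  have := congrFun h 1
  simp [e] at this

lemma isolated_P (m : ℕ) (a : Fin (m + 3) → ℂ) (h : IsSingularPt (P m) a) :
    IsIsolatedSingularPt (P m) a := by
  have hfin : ({a | IsSingularPt (P m) a} \ {a}).Finite := by
    rw [sing_set]
    exact (Set.toFinite _).subset Set.sdiff_subset
  refine ⟨h, _, hfin.isClosed.isOpen_compl.mem_nhds (by simp), ?_⟩
  intro b hb hba hsb
  exact hb ⟨hsb, by simpa using hba⟩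

/-! irreducibility -/

/-- the sum of squares -/
def G (m : ℕ) : MvPolynomial (Fin (m + 3)) ℂ := ∑ i : Fin (m + 1), X i.succ.succ ^ 2

lemma eval_G (m : ℕ) (c : ℂ) :
    eval (fun i : Fin (m + 3) => if i = 1 then c else if i = (0 : Fin (m + 1)).succ.succ then 1 else 0)
      (G m) = 1 := by
  simp only [G, map_sum, map_pow, eval_X]
  rw [Finset.sum_eq_single 0]
  · rw [if_neg (ss_ne_one 0)]; simp
  · intro i _ hi
    rw [if_neg (ss_ne_one i), if_neg]
    · simp
    · intro h
      exact hi (Fin.succ_injective _ (Fin.succ_injective _ h))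
  · intro h; exact absurd (Finset.mem_univ _) h

lemma irr_X1 (m : ℕ) : Irreducible (X 1 : MvPolynomial (Fin (m + 3)) ℂ) :=
  (MvPolynomial.X_prime).irreducible

lemma irr_X1' (m : ℕ) : Irreducible (X 1 - 1 : MvPolynomial (Fin (m + 3)) ℂ) := by
  have hd : (X 1 - 1 : MvPolynomial (Fin (m + 3)) ℂ).totalDegree = 1 := by
    have h : (X 1 - 1 : MvPolynomial (Fin (m + 3)) ℂ) = X 1 + C (-1) := by simp [sub_eq_add_neg]
    rw [h, totalDegree_add_eq_left_of_totalDegree_lt]
    · simp
    · simp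
  apply irreducible_of_totalDegree_eq_one hd
  intro x hx
  have h1 := hx (Finsupp.single 1 1)
  have h2 : coeff (Finsupp.single 1 1) (X 1 - 1 : MvPolynomial (Fin (m + 3)) ℂ) = 1 := by
    have hne : ¬ ((0 : Fin (m + 3) →₀ ℕ) = Finsupp.single 1 1) := by
      intro h
      have := congrArg (fun g : Fin (m + 3) →₀ ℕ => g 1) h
      simp at this
    rw [coeff_sub, coeff_X, if_pos rfl, coeff_one, if_neg hne, sub_zero]
  rw [h2] at h1
  exact isUnit_of_dvd_one h1

lemma relPrime (m : ℕ) : IsRelPrime (-(X 1 * (X 1 - 1)) : MvPolynomial (Fin (m + 3)) ℂ) (G m) := by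
  rw [IsRelPrime.neg_left_iff]
  apply IsRelPrime.mul_left
  · rw [(irr_X1 m).isRelPrime_iff_not_dvd]
    rintro ⟨q, hq⟩
    have := congrArg (eval (fun i : Fin (m + 3) => if i = 1 then (0 : ℂ) else
      if i = (0 : Fin (m + 1)).succ.succ then 1 else 0)) hq
    rw [eval_G, map_mul, eval_X] at this
    simp at this
  · rw [(irr_X1' m).isRelPrime_iff_not_dvd]
    rintro ⟨q, hq⟩
    have := congrArg (eval (fun i : Fin (m + 3) => if i = 1 then (1 : ℂ) else
      if i = (0 : Fin (m + 1)).succ.succ then 1 else 0)) hq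
    rw [eval_G, map_mul, map_sub, eval_X] at this
    simp at this

lemma irreducible_P (m : ℕ) : Irreducible (P m) := by
  classical
  apply irreducible_mul_X_add
  · exact neg_ne_zero.mpr (mul_ne_zero (irr_X1 m).ne_zero (irr_X1' m).ne_zero)
  · rw [vars_neg]
    intro h
    have h1 := vars_mul _ _ h
    rw [Finset.mem_union, vars_X, Finset.mem_singleton] at h1
    rcases h1 with h1 | h1
    · exact one_ne_zero'.symm h1
    · have h2 := vars_sub_subset _ h1
      rw [Finset.mem_union, vars_X, vars_one, Finset.mem_singleton] at h2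
      rcases h2 with h2 | h2
      · exact one_ne_zero'.symm h2
      · simp at h2
  · intro h
    have h1 := vars_sum_subset _ _ h
    rw [Finset.mem_biUnion] at h1
    obtain ⟨i, _, hi⟩ := h1
    have h2 := vars_pow _ _ hi
    rw [vars_X, Finset.mem_singleton] at h2
    exact ss_ne_zero i h2.symm
  · exact relPrime m

/-! contractibility -/

/-- the hypersurface -/
abbrev Z (m : ℕ) : Type := {x : Fin (m + 3) → ℂ // eval x (P m) = 0}

/-- the scaled point `(t ^ 2 * x_0, x_1, t * x_2, ..., t * x_(m+2))` -/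
def sc {m : ℕ} (t : ℂ) (x : Fin (m + 3) → ℂ) : Fin (m + 3) → ℂ :=
  Fin.cons (t ^ 2 * x 0) (Fin.cons (x 1) fun i : Fin (m + 1) => t * x i.succ.succ)

lemma sc_0 {m : ℕ} (t : ℂ) (x : Fin (m + 3) → ℂ) : sc t x 0 = t ^ 2 * x 0 := rfl
lemma sc_1 {m : ℕ} (t : ℂ) (x : Fin (m + 3) → ℂ) : sc t x 1 = x 1 := rfl
lemma sc_ss {m : ℕ} (t : ℂ) (x : Fin (m + 3) → ℂ) (i : Fin (m + 1)) :
    sc t x i.succ.succ = t * x i.succ.succ := rfl

lemma sc_mem {m : ℕ} (t : ℂ) (x : Fin (m + 3) → ℂ) (hx : eval x (P m) = 0) :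
    eval (sc t x) (P m) = 0 := by
  rw [eval_P] at hx ⊢
  simp only [sc_0, sc_1, sc_ss, mul_pow, ← Finset.mul_sum]
  linear_combination t ^ 2 * hx

lemma sc_one {m : ℕ} (x : Fin (m + 3) → ℂ) : sc 1 x = x := by
  funext i
  refine Fin.cases ?_ (fun i => ?_) i
  · rw [sc_0]; ring
  · refine Fin.cases ?_ (fun i => ?_) i
    · have : (0 : Fin (m + 2)).succ = (1 : Fin (m + 3)) := rfl
      rw [this, sc_1]
    · rw [sc_ss]; ring

/-- the point `(0, s * x_1, 0, ..., 0)` -/
def li {m : ℕ} (s : ℂ) (x : Fin (m + 3) → ℂ) : Fin (m + 3) → ℂ :=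
  Fin.cons 0 (Fin.cons (s * x 1) fun _ : Fin (m + 1) => 0)

lemma li_0 {m : ℕ} (t : ℂ) (x : Fin (m + 3) → ℂ) : li t x 0 = 0 := rfl
lemma li_1 {m : ℕ} (t : ℂ) (x : Fin (m + 3) → ℂ) : li t x 1 = t * x 1 := rfl
lemma li_ss {m : ℕ} (t : ℂ) (x : Fin (m + 3) → ℂ) (i : Fin (m + 1)) :
    li t x i.succ.succ = 0 := rfl

lemma li_mem {m : ℕ} (t : ℂ) (x : Fin (m + 3) → ℂ) : eval (li t x) (P m) = 0 := by
  rw [eval_P]
  simp [li_0, li_ss]

lemma sc_zero {m : ℕ} (x : Fin (m + 3) → ℂ) : sc 0 x = li 1 x := by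
  funext i
  refine Fin.cases ?_ (fun i => ?_) i
  · rw [sc_0, li_0]; ring
  · refine Fin.cases ?_ (fun i => ?_) i
    · have : (0 : Fin (m + 2)).succ = (1 : Fin (m + 3)) := rfl
      rw [this, sc_1, li_1]; ring
    · rw [sc_ss, li_ss]; ring

lemma li_zero {m : ℕ} (x : Fin (m + 3) → ℂ) : li 0 x = 0 := by
  funext i
  refine Fin.cases ?_ (fun i => ?_) i
  · rw [li_0]; rfl
  · refine Fin.cases ?_ (fun i => ?_) i
    · have : (0 : Fin (m + 2)).succ = (1 : Fin (m + 3)) := rfl
      rw [this, li_1]; simp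
    · rw [li_ss]; rfl

lemma continuous_sc (m : ℕ) : Continuous fun q : ℂ × (Fin (m + 3) → ℂ) => sc q.1 q.2 := by
  refine continuous_pi fun i => ?_
  refine Fin.cases ?_ (fun i => ?_) i
  · simp only [sc_0]; fun_prop
  · refine Fin.cases ?_ (fun i => ?_) i
    · have : (0 : Fin (m + 2)).succ = (1 : Fin (m + 3)) := rfl
      simp only [this, sc_1]; fun_prop
    · simp only [sc_ss]; fun_prop

lemma continuous_li (m : ℕ) : Continuous fun q : ℂ × (Fin (m + 3) → ℂ) => li q.1 q.2 := by
  refine continuous_pi fun i => ?_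
  refine Fin.cases ?_ (fun i => ?_) i
  · simp only [li_0]; fun_prop
  · refine Fin.cases ?_ (fun i => ?_) i
    · have : (0 : Fin (m + 2)).succ = (1 : Fin (m + 3)) := rfl
      simp only [this, li_1]; fun_prop
    · simp only [li_ss]; fun_prop

/-- the projection to the line of points `(0, y, 0, ..., 0)` -/
def prLine (m : ℕ) : C(Z m, Z m) where
  toFun x := ⟨li 1 x.1, li_mem _ _⟩
  continuous_toFun := by
    apply Continuous.subtype_mk
    exact (continuous_li m).comp (by fun_prop : Continuous fun x : Z m => ((1 : ℂ), x.1))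

/-- the origin -/
def orig (m : ℕ) : Z m :=
  ⟨0, by rw [← li_zero (0 : Fin (m + 3) → ℂ)]; exact li_mem _ _⟩

/-- the affine parameter `1 - t` -/
def par (t : unitInterval) : ℂ := 1 - ((t : ℝ) : ℂ)

lemma par_zero : par 0 = 1 := by simp [par]
lemma par_one : par 1 = 0 := by simp [par]
lemma continuous_par : Continuous par := by unfold par; fun_prop

/-- first stage of the contraction -/
def H1 (m : ℕ) (q : unitInterval × Z m) : Z m := ⟨sc (par q.1) q.2.1, sc_mem _ _ q.2.2⟩

/-- second stage of the contraction -/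
def H2 (m : ℕ) (q : unitInterval × Z m) : Z m := ⟨li (par q.1) q.2.1, li_mem _ _⟩

lemma continuous_par_pair (m : ℕ) :
    Continuous fun q : unitInterval × Z m => (par q.1, (q.2.1 : Fin (m + 3) → ℂ)) :=
  (continuous_par.comp continuous_fst).prodMk (continuous_subtype_val.comp continuous_snd)

lemma continuous_H1 (m : ℕ) : Continuous (H1 m) := by
  have h : Continuous fun q : unitInterval × Z m => (sc (par q.1) q.2.1 : Fin (m + 3) → ℂ) :=
    Continuous.comp (g := fun q : ℂ × (Fin (m + 3) → ℂ) => sc q.1 q.2)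
      (f := fun q : unitInterval × Z m => (par q.1, (q.2.1 : Fin (m + 3) → ℂ)))
      (continuous_sc m) (continuous_par_pair m)
  exact h.subtype_mk _

lemma continuous_H2 (m : ℕ) : Continuous (H2 m) := by
  have h : Continuous fun q : unitInterval × Z m => (li (par q.1) q.2.1 : Fin (m + 3) → ℂ) :=
    Continuous.comp (g := fun q : ℂ × (Fin (m + 3) → ℂ) => li q.1 q.2)
      (f := fun q : unitInterval × Z m => (par q.1, (q.2.1 : Fin (m + 3) → ℂ)))
      (continuous_li m) (continuous_par_pair m)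
  exact h.subtype_mk _

lemma H1_zero (m : ℕ) (x : Z m) : H1 m (0, x) = x := by
  apply Subtype.ext
  simp only [H1, par_zero, sc_one]

lemma H1_one (m : ℕ) (x : Z m) : H1 m (1, x) = prLine m x := by
  apply Subtype.ext
  simp only [H1, par_one, sc_zero, prLine, ContinuousMap.coe_mk]

lemma H2_zero (m : ℕ) (x : Z m) : H2 m (0, x) = prLine m x := by
  apply Subtype.ext
  simp only [H2, par_zero, prLine, ContinuousMap.coe_mk]

lemma H2_one (m : ℕ) (x : Z m) : H2 m (1, x) = orig m := by
  apply Subtype.ext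
  simp only [H2, par_one, li_zero, orig]

lemma contractible_P (m : ℕ) : ContractibleSpace {x : Fin (m + 3) → ℂ // eval x (P m) = 0} := by
  rw [contractible_iff_id_nullhomotopic]
  have h1 : (ContinuousMap.id (Z m)).Homotopic (prLine m) :=
    ⟨⟨⟨H1 m, continuous_H1 m⟩, H1_zero m, H1_one m⟩⟩
  have h2 : (prLine m).Homotopic (ContinuousMap.const (Z m) (orig m)) :=
    ⟨⟨⟨H2 m, continuous_H2 m⟩, H2_zero m, H2_one m⟩⟩
  exact ⟨orig m, h1.trans h2⟩

lemma not_qh (m : ℕ) (Φ : MvPolynomial (Fin (m + 3)) ℂ ≃ₐ[ℂ] MvPolynomial (Fin (m + 3)) ℂ) :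
    ¬ IsQuasihomogeneous (Φ (P m)) := by
  intro hq
  have hinj : Function.Injective (pts Φ) := by
    apply Function.LeftInverse.injective (g := pts Φ.symm)
    intro a
    exact pts_symm Φ.symm a
  have hset : {b | IsSingularPt (Φ (P m)) b} = pts Φ ⁻¹' {0, e m} := by
    ext b
    have := sing_iff Φ (P m) b
    rw [sing_P] at this
    simpa using this
  have hfin : {b | IsSingularPt (Φ (P m)) b}.Finite := by
    rw [hset]
    exact (Set.toFinite _).preimage hinj.injOn
  obtain ⟨a, ha, hs⟩ : ∃ a, a ≠ 0 ∧ IsSingularPt (Φ (P m)) a := by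
    have h0 : IsSingularPt (Φ (P m)) (pts Φ.symm 0) := by
      rw [sing_iff, pts_symm, sing_P]; exact Or.inl rfl
    have h1 : IsSingularPt (Φ (P m)) (pts Φ.symm (e m)) := by
      rw [sing_iff, pts_symm, sing_P]; exact Or.inr rfl
    by_cases hz : pts Φ.symm 0 = 0
    · refine ⟨_, ?_, h1⟩
      intro hz1
      have h2 := congrArg (pts Φ) (hz.trans hz1.symm)
      rw [pts_symm, pts_symm] at h2
      exact e_ne m h2
    · exact ⟨_, hz, h0⟩
  exact qh_sing hq a ha hs hfin

end

/-- For every `n ≥ 3` there is an irreducible polynomial whose zero set is contractible and has an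
isolated singular point (in fact exactly two singular points, both isolated), and which is not
carried to a quasihomogeneous polynomial by any polynomial automorphism. -/
theorem result : ∀ n : ℕ, 3 ≤ n → ∃ p : MvPolynomial (Fin n) ℂ,
    Irreducible p ∧
    ContractibleSpace {x : Fin n → ℂ // eval x p = 0} ∧
    (∃ a, IsIsolatedSingularPt p a) ∧
    {a | IsSingularPt p a}.ncard = 2 ∧
    (∀ a, IsSingularPt p a → IsIsolatedSingularPt p a) ∧
    ∀ Φ : MvPolynomial (Fin n) ℂ ≃ₐ[ℂ] MvPolynomial (Fin n) ℂ, ¬ IsQuasihomogeneous (Φ p) := by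
  intro n hn
  obtain ⟨m, rfl⟩ : ∃ m, n = m + 3 := ⟨n - 3, by omega⟩
  refine ⟨P m, irreducible_P m, contractible_P m, ⟨0, isolated_P m 0 ?_⟩, ?_, isolated_P m,
    not_qh m⟩
  · rw [sing_P]; exact Or.inl rfl
  · rw [sing_set, Set.ncard_pair (e_ne m)]

end Pool.Agent.Results.MP_aa2e78_ag.NotQuasihomogeneous
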